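import Pool.Agent.H598.FQ.Final2

/-!
# The Hardy and Littlewood bound `G(k) ≤ 2k + 1` in polynomial rings over large finite fields
-/

namespace Pool.Agent.Results.MP_efcac8_nt.FunctionFieldHL

/-- Let `k ≥ 2` and let `F` be a finite field of characteristic larger than `k` with at least
`(8k) ^ (k 2 ^ k)` elements. Then every polynomial `m` over `F` is a sum of `2k + 1` `k`-th powers
of polynomials `x i` over `F`, where moreover `k * deg (x i) < deg m + k` (a strict
representation). -/
theorem result (k : ℕ) (hk : 2 ≤ k) (F : Type*) [Field F] [Fintype F]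
    (hchar : k < ringChar F) (hq : (8 * k) ^ (k * 2 ^ k) ≤ Fintype.card F)
    (m : Polynomial F) :
    ∃ x : Fin (2 * k + 1) → Polynomial F,
      (∀ i, k * (x i).natDegree < m.natDegree + k) ∧ ∑ i, x i ^ k = m := by
  apply Pool.Agent.H598.FQ.strict_rep hk _ hq m
  intro i hi hik h0
  have h1 : ringChar F ∣ i := ringChar.dvd h0
  have h2 := Nat.le_of_dvd (by omega) h1
  omega

end Pool.Agent.Results.MP_efcac8_nt.FunctionFieldHL
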